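import Pool.Agent.H21.SumLab

set_option autoImplicit false

namespace Pool.Agent.Results.MP_520ea7_co.NoMinimal
open Pool.Agent.H21.SumLab

/-- A sum labeling: an injective map to the positive integers such that two distinct vertices are
adjacent exactly when the sum of their labels is a label. -/
def IsSumLabeling {V : Type} (G : SimpleGraph V) (l : V → ℕ) : Prop :=
  (∀ v, 1 ≤ l v) ∧ Function.Injective l ∧
    ∀ u v, u ≠ v → (G.Adj u v ↔ ∃ w, l w = l u + l v)

def lab : Fin 8 → ℕ := ![2, 3, 4, 5, 6, 8, 9, 10]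

def G : SimpleGraph (Fin 8) where
  Adj u v := u ≠ v ∧ ∃ w, lab w = lab u + lab v
  symm := ⟨fun u v h => ⟨h.1.symm, by rw [add_comm]; exact h.2⟩⟩
  loopless := ⟨fun u h => h.1 rfl⟩

/-- There is a non-empty finite sum graph none of whose sum labelings uses the label `1`. -/
theorem result : ∃ (n : ℕ) (G : SimpleGraph (Fin n)), 0 < n ∧ (∃ l, IsSumLabeling G l) ∧
    ∀ l, IsSumLabeling G l → ∀ v, l v ≠ 1 := by
  refine ⟨8, G, by norm_num, ⟨lab, by decide, by decide, fun u v h => ⟨fun a => a.2, fun a => ⟨h, a⟩⟩⟩, ?_⟩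
  rintro l ⟨hp, hinj, hadj⟩ v hv
  have he : ∀ i j : Fin 8, i ≠ j → (∃ w, lab w = lab i + lab j) →
      l i + l j = l 0 ∨ l i + l j = l 1 ∨ l i + l j = l 2 ∨ l i + l j = l 3 ∨ l i + l j = l 4 ∨
      l i + l j = l 5 ∨ l i + l j = l 6 ∨ l i + l j = l 7 := by
    intro i j h1 h2
    obtain ⟨w, hw⟩ := (hadj i j h1).1 ⟨h1, h2⟩
    rw [← hw]
    fin_cases w <;> simp
  have hi : ∀ i j : Fin 8, i ≠ j → l i ≠ l j := fun i j h e => h (hinj e)
  have hn : ∀ i j k : Fin 8, i ≠ j → (¬ ∃ w, lab w = lab i + lab j) → l i + l j ≠ l k :=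
    fun i j k h1 h2 e => h2 ((hadj i j h1).2 ⟨k, e.symm⟩).2
  have p0 := hp 0
  have p1 := hp 1
  have p2 := hp 2
  have p3 := hp 3
  have p4 := hp 4
  have p5 := hp 5
  have p6 := hp 6
  have p7 := hp 7
  refine L46 (x0 := l 0) (x1 := l 1) (x2 := l 2) (x3 := l 3) (x4 := l 4) (x5 := l 5) (x6 := l 6)
    (x7 := l 7) ?_ p0 p1 p2 p3 p4 p5 p6 p7
  constructor
  · have := he 0 1 (by decide) (by decide); omega
  · have := he 0 2 (by decide) (by decide); omega
  · have := he 0 4 (by decide) (by decide); omega
  · have := he 0 5 (by decide) (by decide); omega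
  · have := he 1 3 (by decide) (by decide); omega
  · have := he 1 4 (by decide) (by decide); omega
  · have := he 2 3 (by decide) (by decide); omega
  · have := he 2 4 (by decide) (by decide); omega
  · fin_cases v <;> simp_all
  · exact hi 0 1 (by decide)
  · exact hi 0 2 (by decide)
  · exact hi 0 3 (by decide)
  · exact hi 0 4 (by decide)
  · exact hi 0 5 (by decide)
  · exact hi 1 2 (by decide)
  · exact hi 1 3 (by decide)
  · exact hi 1 4 (by decide)
  · exact hi 1 5 (by decide)
  · exact hi 1 6 (by decide)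
  · exact hi 1 7 (by decide)
  · exact hi 2 3 (by decide)
  · exact hi 2 4 (by decide)
  · exact hi 2 5 (by decide)
  · exact hi 3 4 (by decide)
  · exact hi 4 5 (by decide)
  · exact hi 4 6 (by decide)
  · exact hi 4 7 (by decide)
  · exact hi 5 6 (by decide)
  · exact hi 5 7 (by decide)
  · exact hi 6 7 (by decide)
  · exact hn 0 3 4 (by decide) (by decide)
  · exact hn 0 3 5 (by decide) (by decide)
  · exact hn 0 3 6 (by decide) (by decide)
  · exact hn 0 3 7 (by decide) (by decide)
  · exact hn 0 6 3 (by decide) (by decide)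
  · exact hn 0 6 4 (by decide) (by decide)
  · exact hn 0 6 5 (by decide) (by decide)
  · exact hn 0 6 7 (by decide) (by decide)
  · exact hn 0 7 3 (by decide) (by decide)
  · exact hn 0 7 4 (by decide) (by decide)
  · exact hn 0 7 5 (by decide) (by decide)
  · exact hn 0 7 6 (by decide) (by decide)
  · exact hn 1 2 0 (by decide) (by decide)
  · exact hn 1 2 5 (by decide) (by decide)
  · exact hn 1 5 2 (by decide) (by decide)
  · exact hn 1 5 3 (by decide) (by decide)
  · exact hn 1 5 4 (by decide) (by decide)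
  · exact hn 1 5 6 (by decide) (by decide)
  · exact hn 1 5 7 (by decide) (by decide)
  · exact hn 1 6 3 (by decide) (by decide)
  · exact hn 1 6 4 (by decide) (by decide)
  · exact hn 1 6 5 (by decide) (by decide)
  · exact hn 1 6 7 (by decide) (by decide)
  · exact hn 1 7 3 (by decide) (by decide)
  · exact hn 1 7 4 (by decide) (by decide)
  · exact hn 1 7 5 (by decide) (by decide)
  · exact hn 1 7 6 (by decide) (by decide)
  · exact hn 2 5 3 (by decide) (by decide)
  · exact hn 2 5 4 (by decide) (by decide)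
  · exact hn 2 5 6 (by decide) (by decide)
  · exact hn 2 5 7 (by decide) (by decide)
  · exact hn 2 6 3 (by decide) (by decide)
  · exact hn 2 6 4 (by decide) (by decide)
  · exact hn 2 6 5 (by decide) (by decide)
  · exact hn 2 6 7 (by decide) (by decide)
  · exact hn 2 7 3 (by decide) (by decide)
  · exact hn 2 7 4 (by decide) (by decide)
  · exact hn 2 7 5 (by decide) (by decide)
  · exact hn 2 7 6 (by decide) (by decide)
  · exact hn 3 4 1 (by decide) (by decide)
  · exact hn 3 4 2 (by decide) (by decide)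
  · exact hn 3 4 5 (by decide) (by decide)
  · exact hn 3 4 6 (by decide) (by decide)
  · exact hn 3 4 7 (by decide) (by decide)
  · exact hn 3 5 1 (by decide) (by decide)
  · exact hn 3 5 2 (by decide) (by decide)
  · exact hn 3 5 4 (by decide) (by decide)
  · exact hn 3 5 6 (by decide) (by decide)
  · exact hn 3 5 7 (by decide) (by decide)
  · exact hn 3 6 1 (by decide) (by decide)
  · exact hn 3 6 2 (by decide) (by decide)
  · exact hn 3 6 4 (by decide) (by decide)
  · exact hn 3 6 5 (by decide) (by decide)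
  · exact hn 3 6 7 (by decide) (by decide)
  · exact hn 3 7 1 (by decide) (by decide)
  · exact hn 3 7 2 (by decide) (by decide)
  · exact hn 3 7 4 (by decide) (by decide)
  · exact hn 3 7 5 (by decide) (by decide)
  · exact hn 3 7 6 (by decide) (by decide)
  · exact hn 4 5 1 (by decide) (by decide)
  · exact hn 4 5 2 (by decide) (by decide)
  · exact hn 4 5 6 (by decide) (by decide)
  · exact hn 4 5 7 (by decide) (by decide)
  · exact hn 4 6 3 (by decide) (by decide)
  · exact hn 4 6 5 (by decide) (by decide)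
  · exact hn 4 6 7 (by decide) (by decide)
  · exact hn 4 7 3 (by decide) (by decide)
  · exact hn 4 7 5 (by decide) (by decide)
  · exact hn 4 7 6 (by decide) (by decide)
  · exact hn 5 6 3 (by decide) (by decide)
  · exact hn 5 6 7 (by decide) (by decide)
  · exact hn 5 7 3 (by decide) (by decide)
  · exact hn 5 7 6 (by decide) (by decide)

end Pool.Agent.Results.MP_520ea7_co.NoMinimal
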